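import Mathlib

/-!
Solution of the Abel type equation `P ζ = P (ζ + 1) - 1 + β (P (ζ + 1))` on a right half plane,
for a map close to the translation by `-1` near infinity in a sector.
-/

namespace Pool.Agent.Helper61.Abel

open Complex Metric Set Filter Topology

/-- The gauge `N(Z) = Re Z + |Im Z|`; `N > 0` is a sector of opening `3π/2`. -/
def N (Z : ℂ) : ℝ := Z.re + |Z.im|

lemma N_add_ge (X Y : ℂ) : N X - 2 * ‖Y‖ ≤ N (X + Y) := by
  unfold N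
  have h1 := Complex.abs_re_le_norm Y
  have h2 := Complex.abs_im_le_norm Y
  have h3 : |X.im| ≤ |(X + Y).im| + |Y.im| := by
    have : X.im = (X + Y).im + (- Y.im) := by simp
    calc |X.im| = |(X + Y).im + (- Y.im)| := by rw [← this]
      _ ≤ |(X + Y).im| + |- Y.im| := abs_add_le _ _
      _ = _ := by rw [abs_neg]
  have h4 : (X + Y).re = X.re + Y.re := by simp
  have h5 := neg_abs_le Y.re
  rw [h4]
  linarith

/-- `M(Z) = Re Z - |Im Z|`. -/
def M (Z : ℂ) : ℝ := Z.re - |Z.im|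

lemma N_add_ge' (X Y : ℂ) : M X + N Y ≤ N (X + Y) := by
  unfold N M
  have h3 : |Y.im| ≤ |(X + Y).im| + |X.im| := by
    have : Y.im = (X + Y).im + (- X.im) := by simp
    calc |Y.im| = |(X + Y).im + (- X.im)| := by rw [← this]
      _ ≤ |(X + Y).im| + |- X.im| := abs_add_le _ _
      _ = _ := by rw [abs_neg]
  have h4 : (X + Y).re = X.re + Y.re := by simp
  rw [h4]
  linarith

lemma M_le_N (X : ℂ) : M X ≤ N X := by
  unfold N M
  have := abs_nonneg X.im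
  linarith

lemma M_add_ge (X Y : ℂ) : M X - 2 * ‖Y‖ ≤ M (X + Y) := by
  unfold M
  have h1 := Complex.abs_re_le_norm Y
  have h2 := Complex.abs_im_le_norm Y
  have h3 : |(X + Y).im| ≤ |X.im| + |Y.im| := by
    have : (X + Y).im = X.im + Y.im := by simp
    rw [this]; exact abs_add_le _ _
  have h4 : (X + Y).re = X.re + Y.re := by simp
  have h5 := neg_abs_le Y.re
  rw [h4]
  linarith

lemma N_smul (t : ℝ) (ht : 0 ≤ t) (X : ℂ) : N ((t : ℂ) * X) = t * N X := by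
  unfold N
  simp [abs_mul, abs_of_nonneg ht]
  ring

lemma norm_le_N_add_one {ζ : ℂ} (h : 0 ≤ ζ.re) : ‖ζ + 1‖ ≤ N (ζ + 1) := by
  have := Complex.norm_le_abs_re_add_abs_im (ζ + 1)
  unfold N
  have h2 : |(ζ + 1).re| = (ζ + 1).re := abs_of_nonneg (by simp; linarith)
  rw [h2] at this
  exact this

lemma one_le_norm {ζ : ℂ} (h : 0 ≤ ζ.re) : 1 ≤ ‖ζ + 1‖ := by
  have := Complex.abs_re_le_norm (ζ + 1)
  have h2 : (ζ + 1).re = ζ.re + 1 := by simp
  have h3 := le_abs_self (ζ + 1).re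
  linarith

/-- Points of the good ball around `ρ + ζ + 1` have gauge at least `M ρ`. -/
lemma good_ball {ρ ζ W : ℂ} (hζ : 0 ≤ ζ.re) (hW : ‖W - (ρ + (ζ + 1))‖ ≤ ‖ζ + 1‖ / 4) :
    M ρ ≤ N W := by
  have h1 : W = ρ + ((ζ + 1) + (W - (ρ + (ζ + 1)))) := by ring
  have h2 := N_add_ge' ρ ((ζ + 1) + (W - (ρ + (ζ + 1))))
  have h3 := N_add_ge (ζ + 1) (W - (ρ + (ζ + 1)))
  have h4 := norm_le_N_add_one hζ
  have h5 := one_le_norm hζ
  rw [← h1] at h2
  linarith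

lemma good_segment {ρ ζ w Z : ℂ} (hζ : 0 ≤ ζ.re) (hw : ‖w‖ ≤ ‖ζ + 1‖ / 4)
    (hZ : Z ∈ segment ℝ ρ (ρ + ((ζ + 1) + w))) : M ρ ≤ N Z := by
  rw [segment_eq_image'] at hZ
  obtain ⟨t, ht, rfl⟩ := hZ
  have h0 : ρ + t • (ρ + (ζ + 1 + w) - ρ) = ρ + (t : ℂ) * ((ζ + 1) + w) := by
    rw [Complex.real_smul]; ring
  simp only [h0]
  have h2 := N_add_ge' ρ ((t : ℂ) * ((ζ + 1) + w))
  rw [N_smul t ht.1] at h2
  have h3 := N_add_ge (ζ + 1) w
  have h4 := norm_le_N_add_one hζ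
  have h5 := one_le_norm hζ
  have h6 : 0 ≤ N (ζ + 1 + w) := by linarith
  have h7 := mul_nonneg ht.1 h6
  linarith

section

variable {β β' : ℂ → ℂ} {R0 : ℝ} {D : ℝ → ℝ}

lemma lip (hβ' : ∀ Z, R0 < N Z → HasDerivAt β (β' Z) Z)
    (hD : ∀ Z, R0 < N Z → ‖β' Z‖ ≤ D (N Z))
    (hDa : AntitoneOn D (Ioi R0))
    {R : ℝ} (hR : R0 < R) {X Y : ℂ} (h : ∀ Z ∈ segment ℝ X Y, R ≤ N Z) :
    ‖β Y - β X‖ ≤ D R * ‖Y - X‖ := by
  refine Convex.norm_image_sub_le_of_norm_hasDerivWithin_le (f := β) (f' := β')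
    (s := segment ℝ X Y) ?_ ?_ (convex_segment X Y) (left_mem_segment ℝ X Y)
    (right_mem_segment ℝ X Y)
  · intro Z hZ
    exact (hβ' Z (lt_of_lt_of_le hR (h Z hZ))).hasDerivWithinAt
  · intro Z hZ
    have h1 : R0 < N Z := lt_of_lt_of_le hR (h Z hZ)
    exact (hD Z h1).trans (hDa hR h1 (h Z hZ))

/-- approximate reference orbit -/
def rho (β : ℂ → ℂ) (R1 : ℝ) : ℕ → ℂ
  | 0 => R1
  | n + 1 => rho β R1 n + 1 - β (rho β R1 n)

/-- the approximations -/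
def PP (β : ℂ → ℂ) (ρ : ℕ → ℂ) : ℕ → ℕ → ℂ → ℂ
  | 0, k, ζ => ρ k + ζ
  | n + 1, k, ζ => PP β ρ n (k + 1) ζ - 1 + β (PP β ρ n (k + 1) ζ)

lemma M_rho (hβs : ∀ Z, R0 < N Z → ‖β Z‖ ≤ 1 / 8) {R1 : ℝ} (hR1 : R0 < R1) (n : ℕ) :
    R1 + n / 2 ≤ M (rho β R1 n) := by
  induction n with
  | zero => simp [rho, M]
  | succ n ih =>
    have h0 : R0 < N (rho β R1 n) := by
      have := M_le_N (rho β R1 n)
      have h2 : (0 : ℝ) ≤ n / 2 := by positivity
      linarith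
    have h1 := hβs _ h0
    have h2 := M_add_ge (rho β R1 n + 1) (- β (rho β R1 n))
    have h3 : M (rho β R1 n + 1) = M (rho β R1 n) + 1 := by
      unfold M; simp; ring
    rw [norm_neg] at h2
    have h4 : rho β R1 (n + 1) = rho β R1 n + 1 + - β (rho β R1 n) := by
      simp [rho, sub_eq_add_neg]
    rw [h4]
    push_cast
    linarith


/-- package of hypotheses -/
structure Hyp (β β' : ℂ → ℂ) (R0 : ℝ) (D : ℝ → ℝ) : Prop where
  hβ' : ∀ Z, R0 < N Z → HasDerivAt β (β' Z) Z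
  hD : ∀ Z, R0 < N Z → ‖β' Z‖ ≤ D (N Z)
  hDa : AntitoneOn D (Ioi R0)
  hD0 : ∀ x, R0 < x → 0 ≤ D x
  hβs : ∀ Z, R0 < N Z → ‖β Z‖ ≤ 1 / 8
  hsum : ∀ n : ℕ, ∑ i ∈ Finset.range n, 2 * D (R0 + 1 + i / 2) ≤ 1 / 32
  hβ0 : ∀ ε > 0, ∃ R, ∀ Z, R ≤ N Z → ‖β Z‖ ≤ ε

variable (H : Hyp β β' R0 D)

/-- step sizes -/
noncomputable def ell (D : ℝ → ℝ) (R0 : ℝ) (i : ℕ) : ℝ := 2 * D (R0 + 1 + i / 2)

include H in
lemma ell_nonneg (i : ℕ) : 0 ≤ ell D R0 i := by
  unfold ell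
  have : R0 < R0 + 1 + (i : ℝ) / 2 := by
    have : (0 : ℝ) ≤ i / 2 := by positivity
    linarith
  have := H.hD0 _ this
  linarith

include H in
lemma summable_ell : Summable (ell D R0) :=
  summable_of_sum_range_le (ell_nonneg H) H.hsum

include H in
lemma sum_ell_shift (k n : ℕ) : ∑ i ∈ Finset.range n, ell D R0 (k + i) ≤ 1 / 32 := by
  have h1 : ∑ i ∈ Finset.range n, ell D R0 (k + i) ≤ ∑ i ∈ Finset.range (k + n), ell D R0 i := by
    rw [Finset.sum_range_add]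
    have : 0 ≤ ∑ i ∈ Finset.range k, ell D R0 i :=
      Finset.sum_nonneg (fun i _ => ell_nonneg H i)
    linarith
  exact h1.trans (H.hsum (k + n))


/-- reference orbit starting at `R0 + 1` -/
def rr (β : ℂ → ℂ) (R0 : ℝ) (n : ℕ) : ℂ := rho β (R0 + 1) n

lemma rr_succ (n : ℕ) : rr β R0 (n + 1) = rr β R0 n + 1 - β (rr β R0 n) := rfl

include H in
lemma M_rr (n : ℕ) : R0 + 1 + n / 2 ≤ M (rr β R0 n) :=
  M_rho H.hβs (by linarith) n

include H in
lemma M_rr' (n : ℕ) : R0 + 1 ≤ M (rr β R0 n) := by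
  have h1 := M_rr H n
  have h2 : (0 : ℝ) ≤ n / 2 := by positivity
  linarith

include H in
lemma N_rr (n : ℕ) : R0 < N (rr β R0 n) := by
  have h1 := M_rr' H n
  have h3 := M_le_N (rr β R0 n)
  linarith

include H in
lemma beta_rr (n : ℕ) : ‖β (rr β R0 n)‖ ≤ 1 / 8 := H.hβs _ (N_rr H n)

include H in
/-- main estimate -/
lemma est (n : ℕ) : ∀ (k : ℕ) (ζ : ℂ), 0 ≤ ζ.re →
    ‖PP β (rr β R0) n k ζ - (rr β R0 k + ζ)‖ ≤
      ‖ζ + 1‖ * ∑ i ∈ Finset.range n, ell D R0 (k + i) := by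
  induction n with
  | zero => intro k ζ _; simp [PP]
  | succ n ih =>
    intro k ζ hζ
    have h1 := one_le_norm hζ
    have hb := beta_rr H k
    set e := PP β (rr β R0) n (k + 1) ζ - (rr β R0 (k + 1) + ζ) with he
    have hek := ih (k + 1) ζ hζ
    rw [← he] at hek
    have hsum := sum_ell_shift H (k + 1) n
    have he1 : ‖e‖ ≤ ‖ζ + 1‖ / 32 := by
      calc ‖e‖ ≤ ‖ζ + 1‖ * ∑ i ∈ Finset.range n, ell D R0 (k + 1 + i) := hek
        _ ≤ ‖ζ + 1‖ * (1 / 32) := by gcongr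
        _ = _ := by ring
    set w := e - β (rr β R0 k) with hw
    have hw1 : ‖w‖ ≤ ‖ζ + 1‖ / 4 := by
      calc ‖w‖ ≤ ‖e‖ + ‖β (rr β R0 k)‖ := norm_sub_le _ _
        _ ≤ ‖ζ + 1‖ / 32 + 1 / 8 := by gcongr
        _ ≤ ‖ζ + 1‖ / 4 := by linarith
    have hPP : PP β (rr β R0) n (k + 1) ζ = rr β R0 k + ((ζ + 1) + w) := by
      rw [hw, he, rr_succ]; ring
    have hlip : ‖β (rr β R0 k + ((ζ + 1) + w)) - β (rr β R0 k)‖
        ≤ D (R0 + 1 + k / 2) * ‖rr β R0 k + ((ζ + 1) + w) - rr β R0 k‖ := by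
      apply lip H.hβ' H.hD H.hDa
      · have h2 : (0 : ℝ) ≤ k / 2 := by positivity
        linarith
      · intro Z hZ
        exact (M_rr H k).trans (good_segment hζ hw1 hZ)
    have hn : ‖rr β R0 k + ((ζ + 1) + w) - rr β R0 k‖ ≤ 2 * ‖ζ + 1‖ := by
      have : rr β R0 k + ((ζ + 1) + w) - rr β R0 k = (ζ + 1) + w := by ring
      rw [this]
      calc ‖(ζ + 1) + w‖ ≤ ‖ζ + 1‖ + ‖w‖ := norm_add_le _ _
        _ ≤ ‖ζ + 1‖ + ‖ζ + 1‖ / 4 := by gcongr
        _ ≤ 2 * ‖ζ + 1‖ := by linarith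
    have hD0 : 0 ≤ D (R0 + 1 + k / 2) := by
      apply H.hD0
      have h2 : (0 : ℝ) ≤ k / 2 := by positivity
      linarith
    have hlip2 : ‖β (rr β R0 k + ((ζ + 1) + w)) - β (rr β R0 k)‖ ≤ ‖ζ + 1‖ * ell D R0 k := by
      calc _ ≤ D (R0 + 1 + k / 2) * ‖rr β R0 k + ((ζ + 1) + w) - rr β R0 k‖ := hlip
        _ ≤ D (R0 + 1 + k / 2) * (2 * ‖ζ + 1‖) := by gcongr
        _ = ‖ζ + 1‖ * ell D R0 k := by unfold ell; ring
    have hfin : PP β (rr β R0) (n + 1) k ζ - (rr β R0 k + ζ) =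
        e + (β (rr β R0 k + ((ζ + 1) + w)) - β (rr β R0 k)) := by
      have : PP β (rr β R0) (n + 1) k ζ = PP β (rr β R0) n (k + 1) ζ - 1
        + β (PP β (rr β R0) n (k + 1) ζ) := rfl
      rw [this, ← hPP]
      have : PP β (rr β R0) n (k + 1) ζ = e + (rr β R0 (k + 1) + ζ) := by rw [he]; ring
      have h3 : PP β (rr β R0) n (k + 1) ζ - 1 = e + rr β R0 k + ζ - β (rr β R0 k) := by
        rw [this, rr_succ]; ring
      rw [h3]; ring
    rw [hfin, Finset.sum_range_succ']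
    calc _ ≤ ‖e‖ + ‖β (rr β R0 k + ((ζ + 1) + w)) - β (rr β R0 k)‖ := norm_add_le _ _
      _ ≤ ‖ζ + 1‖ * ∑ i ∈ Finset.range n, ell D R0 (k + 1 + i) + ‖ζ + 1‖ * ell D R0 k := by
        gcongr
      _ = _ := by
        rw [mul_add]
        simp only [add_zero]
        congr 2
        apply Finset.sum_congr rfl
        intro i _
        congr 1
        ring

include H in
lemma est' (n k : ℕ) {ζ : ℂ} (hζ : 0 ≤ ζ.re) :
    ‖PP β (rr β R0) n k ζ - (rr β R0 k + ζ)‖ ≤ ‖ζ + 1‖ / 32 := by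
  have h1 := est H n k ζ hζ
  have hsum := sum_ell_shift H k n
  calc _ ≤ ‖ζ + 1‖ * ∑ i ∈ Finset.range n, ell D R0 (k + i) := h1
    _ ≤ ‖ζ + 1‖ * (1 / 32) := by gcongr
    _ = _ := by ring

/-- lower bound of the gauge for points near `rr k + ζ` -/
lemma N_near {ρ ζ W : ℂ} (hζ : 0 ≤ ζ.re) (hW : ‖W - (ρ + ζ)‖ ≤ ‖ζ + 1‖ / 32) :
    M ρ - 1 + (15 / 16) * ‖ζ + 1‖ ≤ N W := by
  have h1 : W = ρ + (ζ + (W - (ρ + ζ))) := by ring
  have h2 := N_add_ge' ρ (ζ + (W - (ρ + ζ)))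
  have h3 := N_add_ge ζ (W - (ρ + ζ))
  have h4 := norm_le_N_add_one hζ
  have h5 : N (ζ + 1) = N ζ + 1 := by unfold N; simp; ring
  rw [← h1] at h2
  linarith

include H in
lemma N_PP (n k : ℕ) {ζ : ℂ} (hζ : 0 ≤ ζ.re) : R0 < N (PP β (rr β R0) n k ζ) := by
  have h1 := N_near hζ (est' H n k hζ)
  have h2 := M_rr' H k
  have h3 := one_le_norm hζ
  linarith

include H in
/-- points `PP n (k+1) ζ` lie in the good ball of `rr k` -/
lemma good1 (n k : ℕ) {ζ : ℂ} (hζ : 0 ≤ ζ.re) :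
    ‖PP β (rr β R0) n (k + 1) ζ - (rr β R0 k + (ζ + 1))‖ ≤ ‖ζ + 1‖ / 4 := by
  have h1 := est' H n (k + 1) hζ
  have h2 := beta_rr H k
  have h3 := one_le_norm hζ
  have h4 : PP β (rr β R0) n (k + 1) ζ - (rr β R0 k + (ζ + 1)) =
    (PP β (rr β R0) n (k + 1) ζ - (rr β R0 (k + 1) + ζ)) - β (rr β R0 k) := by
    rw [rr_succ]; ring
  rw [h4]
  calc _ ≤ ‖PP β (rr β R0) n (k + 1) ζ - (rr β R0 (k + 1) + ζ)‖ + ‖β (rr β R0 k)‖ :=
        norm_sub_le _ _
    _ ≤ ‖ζ + 1‖ / 32 + 1 / 8 := by gcongr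
    _ ≤ _ := by linarith

include H in
/-- points `PP n k (ζ+1)` lie in the good ball of `rr k` -/
lemma good2 (n k : ℕ) {ζ : ℂ} (hζ : 0 ≤ ζ.re) :
    ‖PP β (rr β R0) n k (ζ + 1) - (rr β R0 k + (ζ + 1))‖ ≤ ‖ζ + 1‖ / 4 := by
  have h1 := est' H n k (ζ := ζ + 1) (by simp; linarith)
  have h3 := one_le_norm hζ
  have h4 : ‖ζ + 1 + 1‖ ≤ ‖ζ + 1‖ + 1 := by
    calc _ ≤ ‖ζ + 1‖ + ‖(1 : ℂ)‖ := norm_add_le _ _
      _ = _ := by simp
  linarith

include H in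
/-- the map `Φ` is almost an isometry on good balls -/
lemma phi_lip (k : ℕ) {ζ X Y : ℂ} (hζ : 0 ≤ ζ.re)
    (hX : ‖X - (rr β R0 k + (ζ + 1))‖ ≤ ‖ζ + 1‖ / 4)
    (hY : ‖Y - (rr β R0 k + (ζ + 1))‖ ≤ ‖ζ + 1‖ / 4) :
    ‖(Y - 1 + β Y) - (X - 1 + β X)‖ ≤ (1 + ell D R0 k) * ‖Y - X‖ := by
  have h2 : (0 : ℝ) ≤ k / 2 := by positivity
  have h1 : ‖β Y - β X‖ ≤ D (R0 + 1 + k / 2) * ‖Y - X‖ := by
    apply lip H.hβ' H.hD H.hDa
    · linarith
    · intro Z hZ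
      refine (M_rr H k).trans (good_ball (ζ := ζ) hζ ?_)
      have hX' : X ∈ closedBall (rr β R0 k + (ζ + 1)) (‖ζ + 1‖ / 4) := by
        rw [mem_closedBall_iff_norm]; exact hX
      have hY' : Y ∈ closedBall (rr β R0 k + (ζ + 1)) (‖ζ + 1‖ / 4) := by
        rw [mem_closedBall_iff_norm]; exact hY
      have hZ' := (convex_closedBall (rr β R0 k + (ζ + 1)) (‖ζ + 1‖ / 4)).segment_subset hX' hY' hZ
      rw [mem_closedBall_iff_norm] at hZ'
      exact hZ'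
  have hD0 : 0 ≤ D (R0 + 1 + k / 2) := H.hD0 _ (by linarith)
  have h3 : (Y - 1 + β Y) - (X - 1 + β X) = (Y - X) + (β Y - β X) := by ring
  rw [h3]
  calc _ ≤ ‖Y - X‖ + ‖β Y - β X‖ := norm_add_le _ _
    _ ≤ ‖Y - X‖ + D (R0 + 1 + k / 2) * ‖Y - X‖ := by gcongr
    _ ≤ _ := by
      unfold ell
      nlinarith [norm_nonneg (Y - X), mul_nonneg hD0 (norm_nonneg (Y - X))]

lemma sum_shift (k n : ℕ) : ell D R0 k + ∑ i ∈ Finset.range n, ell D R0 (k + 1 + i) =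
    ∑ i ∈ Finset.range (n + 1), ell D R0 (k + i) := by
  rw [Finset.sum_range_succ', add_comm]
  simp only [add_zero]
  congr 1
  apply Finset.sum_congr rfl
  intro i _
  congr 1
  ring

include H in
lemma diff_est (n : ℕ) : ∀ (k : ℕ) (ζ : ℂ), 0 ≤ ζ.re →
    ‖PP β (rr β R0) (n + 1) k ζ - PP β (rr β R0) n k ζ‖ ≤
      Real.exp (∑ i ∈ Finset.range n, ell D R0 (k + i)) * (‖ζ + 1‖ * ell D R0 (k + n)) := by
  induction n with
  | zero =>
    intro k ζ hζ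
    have := est H 1 k ζ hζ
    simpa [PP] using this
  | succ n ih =>
    intro k ζ hζ
    have h1 := phi_lip H k hζ (good1 H n k hζ) (good1 H (n + 1) k hζ)
    have h2 := ih (k + 1) ζ hζ
    have h3 := ell_nonneg H k
    have h4 : PP β (rr β R0) (n + 1 + 1) k ζ - PP β (rr β R0) (n + 1) k ζ =
      (PP β (rr β R0) (n + 1) (k + 1) ζ - 1 + β (PP β (rr β R0) (n + 1) (k + 1) ζ)) -
      (PP β (rr β R0) n (k + 1) ζ - 1 + β (PP β (rr β R0) n (k + 1) ζ)) := rfl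
    rw [h4]
    have h5 : 1 + ell D R0 k ≤ Real.exp (ell D R0 k) := by
      have := Real.add_one_le_exp (ell D R0 k); linarith
    have h6 : 0 ≤ ‖ζ + 1‖ * ell D R0 (k + 1 + n) := by
      have := ell_nonneg H (k + 1 + n)
      positivity
    calc _ ≤ (1 + ell D R0 k) * ‖PP β (rr β R0) (n + 1) (k + 1) ζ - PP β (rr β R0) n (k + 1) ζ‖ := h1
      _ ≤ Real.exp (ell D R0 k) * (Real.exp (∑ i ∈ Finset.range n, ell D R0 (k + 1 + i)) *
          (‖ζ + 1‖ * ell D R0 (k + 1 + n))) := by gcongr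
      _ = _ := by
        rw [← mul_assoc, ← Real.exp_add, sum_shift, show k + 1 + n = k + (n + 1) by ring]

include H in
lemma diff_est' (n k : ℕ) {ζ : ℂ} (hζ : 0 ≤ ζ.re) :
    ‖PP β (rr β R0) (n + 1) k ζ - PP β (rr β R0) n k ζ‖ ≤ 2 * ‖ζ + 1‖ * ell D R0 (k + n) := by
  have h1 := diff_est H n k ζ hζ
  have h2 := sum_ell_shift H k n
  have h3 : Real.exp (∑ i ∈ Finset.range n, ell D R0 (k + i)) ≤ 2 := by
    calc _ ≤ Real.exp (1 / 32) := Real.exp_le_exp.mpr h2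
      _ ≤ 2 := by
        have := Real.exp_one_lt_d9
        have h5 : Real.exp (1/32) ≤ Real.exp (1/2) := Real.exp_le_exp.mpr (by norm_num)
        have h6 : Real.exp (1/2) * Real.exp (1/2) = Real.exp 1 := by
          rw [← Real.exp_add]; norm_num
        nlinarith [Real.exp_pos (1/2)]
  have h4 := ell_nonneg H (k + n)
  calc _ ≤ _ := h1
    _ ≤ 2 * (‖ζ + 1‖ * ell D R0 (k + n)) := by gcongr
    _ = _ := by ring

include H in
lemma shift_est (n : ℕ) : ∀ (k : ℕ) (ζ : ℂ), 0 ≤ ζ.re →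
    ‖PP β (rr β R0) n (k + 1) ζ - PP β (rr β R0) n k (ζ + 1)‖ ≤
      Real.exp (∑ i ∈ Finset.range n, ell D R0 (k + 1 + i)) * ‖β (rr β R0 (k + n))‖ := by
  induction n with
  | zero =>
    intro k ζ hζ
    have : PP β (rr β R0) 0 (k + 1) ζ - PP β (rr β R0) 0 k (ζ + 1) = - β (rr β R0 k) := by
      simp only [PP, rr_succ]; ring
    rw [this]
    simp
  | succ n ih =>
    intro k ζ hζ
    have h1 := phi_lip H (k + 1) hζ (good2 H n (k + 1) hζ) (good1 H n (k + 1) hζ)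
    have h2 := ih (k + 1) ζ hζ
    have h3 := ell_nonneg H (k + 1)
    have h4 : PP β (rr β R0) (n + 1) (k + 1) ζ - PP β (rr β R0) (n + 1) k (ζ + 1) =
      (PP β (rr β R0) n (k + 1 + 1) ζ - 1 + β (PP β (rr β R0) n (k + 1 + 1) ζ)) -
      (PP β (rr β R0) n (k + 1) (ζ + 1) - 1 + β (PP β (rr β R0) n (k + 1) (ζ + 1))) := rfl
    rw [h4]
    have h5 : 1 + ell D R0 (k + 1) ≤ Real.exp (ell D R0 (k + 1)) := by
      have := Real.add_one_le_exp (ell D R0 (k + 1)); linarith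
    calc _ ≤ (1 + ell D R0 (k + 1)) *
          ‖PP β (rr β R0) n (k + 1 + 1) ζ - PP β (rr β R0) n (k + 1) (ζ + 1)‖ := h1
      _ ≤ Real.exp (ell D R0 (k + 1)) * (Real.exp (∑ i ∈ Finset.range n, ell D R0 (k + 1 + 1 + i)) *
          ‖β (rr β R0 (k + 1 + n))‖) := by gcongr
      _ = _ := by
        rw [← mul_assoc, ← Real.exp_add, sum_shift, show k + 1 + n = k + (n + 1) by ring]

include H in
lemma differentiableAt_PP (n : ℕ) : ∀ (k : ℕ) (ζ : ℂ), 0 ≤ ζ.re →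
    DifferentiableAt ℂ (PP β (rr β R0) n k) ζ := by
  induction n with
  | zero => intro k ζ _; exact (differentiableAt_id.const_add _)
  | succ n ih =>
    intro k ζ hζ
    have h1 := ih (k + 1) ζ hζ
    have h2 := (H.hβ' _ (N_PP H n (k + 1) hζ)).differentiableAt
    have h3 : DifferentiableAt ℂ (fun ζ => β (PP β (rr β R0) n (k + 1) ζ)) ζ :=
      DifferentiableAt.comp ζ h2 h1
    exact (h1.sub_const 1).add h3

/-- the limit -/
noncomputable def PL (β : ℂ → ℂ) (R0 : ℝ) (k : ℕ) (ζ : ℂ) : ℂ :=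
  rr β R0 k + ζ + ∑' n, (PP β (rr β R0) (n + 1) k ζ - PP β (rr β R0) n k ζ)

include H in
lemma tendsto_PP (k : ℕ) {ζ : ℂ} (hζ : 0 ≤ ζ.re) :
    Tendsto (fun n => PP β (rr β R0) n k ζ) atTop (𝓝 (PL β R0 k ζ)) := by
  have hs : Summable (fun n => PP β (rr β R0) (n + 1) k ζ - PP β (rr β R0) n k ζ) := by
    apply Summable.of_norm_bounded (g := fun n => 2 * ‖ζ + 1‖ * ell D R0 (k + n))
    · apply Summable.mul_left
      have h0 := summable_ell H
      have := (summable_nat_add_iff k).mpr h0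
      simpa [add_comm] using this
    · intro n; exact diff_est' H n k hζ
  have h1 := hs.hasSum.tendsto_sum_nat
  have h2 : ∀ n, ∑ i ∈ Finset.range n, (PP β (rr β R0) (i + 1) k ζ - PP β (rr β R0) i k ζ)
      = PP β (rr β R0) n k ζ - (rr β R0 k + ζ) := by
    intro n
    rw [Finset.sum_range_sub (fun i => PP β (rr β R0) i k ζ)]
    rfl
  simp only [h2] at h1
  have h3 := h1.const_add (rr β R0 k + ζ)
  simpa [PL] using h3

include H in
lemma differentiableOn_PL (k : ℕ) : DifferentiableOn ℂ (PL β R0 k) {ζ | 0 < ζ.re} := by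
  intro ζ hζ
  have hζ' : 0 < ζ.re := hζ
  set U : Set ℂ := {ζ | 0 < ζ.re} ∩ ball 0 (‖ζ‖ + 1) with hU
  have hUo : IsOpen U := (isOpen_lt continuous_const Complex.continuous_re).inter isOpen_ball
  have hmem : ζ ∈ U := ⟨hζ', by simp⟩
  have h1 : DifferentiableOn ℂ
      (fun ζ => ∑' n, (PP β (rr β R0) (n + 1) k ζ - PP β (rr β R0) n k ζ)) U := by
    apply differentiableOn_tsum_of_summable_norm
      (u := fun n => 2 * (‖ζ‖ + 2) * ell D R0 (k + n))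
    · apply Summable.mul_left
      have h0 := summable_ell H
      have := (summable_nat_add_iff k).mpr h0
      simpa [add_comm] using this
    · intro n w hw
      have hw' : 0 ≤ w.re := le_of_lt hw.1
      exact ((differentiableAt_PP H (n + 1) k w hw').sub
        (differentiableAt_PP H n k w hw')).differentiableWithinAt
    · exact hUo
    · intro n w hw
      have hw' : 0 ≤ w.re := le_of_lt hw.1
      have h2 := diff_est' H n k hw'
      have h3 : ‖w + 1‖ ≤ ‖ζ‖ + 2 := by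
        have h4 : ‖w‖ < ‖ζ‖ + 1 := by simpa using hw.2
        calc ‖w + 1‖ ≤ ‖w‖ + ‖(1 : ℂ)‖ := norm_add_le _ _
          _ ≤ _ := by simp; linarith
      have h5 := ell_nonneg H (k + n)
      calc _ ≤ _ := h2
        _ ≤ _ := by gcongr
  have h2 : DifferentiableAt ℂ (PL β R0 k) ζ := by
    have := h1.differentiableAt (hUo.mem_nhds hmem)
    exact (differentiableAt_id.const_add _).add this
  exact h2.differentiableWithinAt

include H in
lemma est_PL (k : ℕ) {ζ : ℂ} (hζ : 0 ≤ ζ.re) :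
    ‖PL β R0 k ζ - (rr β R0 k + ζ)‖ ≤ ‖ζ + 1‖ / 32 := by
  have h1 := (tendsto_PP H k hζ).sub_const (rr β R0 k + ζ)
  exact le_of_tendsto h1.norm (Eventually.of_forall (fun n => est' H n k hζ))

include H in
lemma N_PL (k : ℕ) {ζ : ℂ} (hζ : 0 ≤ ζ.re) : R0 + (15 / 16) * ‖ζ + 1‖ ≤ N (PL β R0 k ζ) := by
  have h1 := N_near hζ (est_PL H k hζ)
  have h2 := M_rr' H k
  linarith

include H in
lemma tendsto_beta_rr : Tendsto (fun n => ‖β (rr β R0 n)‖) atTop (𝓝 0) := by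
  rw [Metric.tendsto_atTop]
  intro ε hε
  obtain ⟨R, hR⟩ := H.hβ0 (ε / 2) (by linarith)
  obtain ⟨n0, hn0⟩ := exists_nat_ge (2 * (R - R0))
  refine ⟨n0, fun n hn => ?_⟩
  have h1 := M_rr H n
  have h2 := M_le_N (rr β R0 n)
  have h3 : (n0 : ℝ) ≤ n := by exact_mod_cast hn
  have h4 := hR (rr β R0 n) (by linarith)
  simp only [dist_zero_right, norm_norm]
  linarith

include H in
lemma PL_shift (k : ℕ) {ζ : ℂ} (hζ : 0 ≤ ζ.re) :
    PL β R0 (k + 1) ζ = PL β R0 k (ζ + 1) := by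
  have h1 := tendsto_PP H (k + 1) hζ
  have h2 := tendsto_PP H k (ζ := ζ + 1) (by simp; linarith)
  have h3 := h1.sub h2
  have h4 : Tendsto (fun n => PP β (rr β R0) n (k + 1) ζ - PP β (rr β R0) n k (ζ + 1)) atTop
      (𝓝 0) := by
    rw [tendsto_zero_iff_norm_tendsto_zero]
    have h5 : Tendsto (fun n => 2 * ‖β (rr β R0 (k + n))‖) atTop (𝓝 (2 * 0)) := by
      apply Tendsto.const_mul
      have := (tendsto_beta_rr H).comp (tendsto_add_atTop_nat k)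
      simpa [Function.comp_def, add_comm] using this
    rw [mul_zero] at h5
    refine squeeze_zero (fun n => norm_nonneg _) (fun n => ?_) h5
    have h6 := shift_est H n k ζ hζ
    have h7 := sum_ell_shift H (k + 1) n
    have h8 : Real.exp (∑ i ∈ Finset.range n, ell D R0 (k + 1 + i)) ≤ 2 := by
      calc _ ≤ Real.exp (1 / 32) := Real.exp_le_exp.mpr h7
        _ ≤ 2 := by
          have := Real.exp_one_lt_d9
          have h5 : Real.exp (1/32) ≤ Real.exp (1/2) := Real.exp_le_exp.mpr (by norm_num)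
          have h6 : Real.exp (1/2) * Real.exp (1/2) = Real.exp 1 := by
            rw [← Real.exp_add]; norm_num
          nlinarith [Real.exp_pos (1/2)]
    calc _ ≤ _ := h6
      _ ≤ _ := by gcongr
  have h5 := tendsto_nhds_unique h3 h4
  exact sub_eq_zero.mp h5

include H in
/-- the functional equation -/
lemma PL_eq (k : ℕ) {ζ : ℂ} (hζ : 0 ≤ ζ.re) :
    PL β R0 k ζ = PL β R0 k (ζ + 1) - 1 + β (PL β R0 k (ζ + 1)) := by
  have h1 := (tendsto_PP H k hζ).comp (tendsto_add_atTop_nat 1)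
  have h2 := tendsto_PP H (k + 1) hζ
  have h3 : R0 < N (PL β R0 (k + 1) ζ) := by
    have h4 := N_PL H (k + 1) hζ
    have h5 := one_le_norm hζ
    linarith
  have h4 : ContinuousAt β (PL β R0 (k + 1) ζ) := (H.hβ' _ h3).continuousAt
  have h5 : Tendsto (fun n => PP β (rr β R0) n (k + 1) ζ - 1 + β (PP β (rr β R0) n (k + 1) ζ))
      atTop (𝓝 (PL β R0 (k + 1) ζ - 1 + β (PL β R0 (k + 1) ζ))) :=
    (h2.sub_const 1).add (h4.tendsto.comp h2)
  have h6 := tendsto_nhds_unique h1 h5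
  rw [h6, PL_shift H k hζ]

include H in
/-- **Main output**: a solution of the Abel equation in the right half plane. -/
theorem exists_abel : ∃ P : ℂ → ℂ, DifferentiableOn ℂ P {ζ | 0 < ζ.re} ∧
    (∀ ζ : ℂ, 0 ≤ ζ.re → P ζ = P (ζ + 1) - 1 + β (P (ζ + 1))) ∧
    (∀ ζ : ℂ, 0 ≤ ζ.re → R0 + (15 / 16) * ‖ζ + 1‖ ≤ N (P ζ)) :=
  ⟨PL β R0 0, differentiableOn_PL H 0, fun _ hζ => PL_eq H 0 hζ, fun _ hζ => N_PL H 0 hζ⟩

end

end Pool.Agent.Helper61.Abel
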