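import Mathlib

/-!
The conformal map `ζ(w) = 5/4 + (i/2π) log((1+w)/(1-w))` from the unit disc onto the strip
`1 < Re ζ < 3/2`, and some auxiliary facts.
-/

namespace Pool.Agent.Helper61.DiscMap

open Complex Metric Set Filter Topology

/-- Cayley map -/
noncomputable def T (w : ℂ) : ℂ := (1 + w) / (1 - w)

/-- the map onto the strip -/
noncomputable def zeta (w : ℂ) : ℂ := 5 / 4 + I / (2 * Real.pi) * log (T w)

lemma T_re {w : ℂ} (hw : w ≠ 1) : (T w).re = (1 - normSq w) / normSq (1 - w) := by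
  have h : (1 - w) ≠ 0 := sub_ne_zero.mpr hw.symm
  have hn : normSq (1 - w) ≠ 0 := by simpa using h
  unfold T
  rw [Complex.div_re]
  field_simp
  simp [normSq_apply]
  ring

lemma T_ne_zero {w : ℂ} (hw : w ≠ 1) (hw' : w ≠ -1) : T w ≠ 0 := by
  unfold T
  apply div_ne_zero
  · intro h
    apply hw'
    linear_combination h
  · exact sub_ne_zero.mpr hw.symm

lemma T_re_nonneg {w : ℂ} (hw : w ≠ 1) (h : ‖w‖ ≤ 1) : 0 ≤ (T w).re := by
  rw [T_re hw]
  apply div_nonneg _ (normSq_nonneg _)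
  rw [Complex.normSq_eq_norm_sq]
  nlinarith [norm_nonneg w]

lemma T_re_pos {w : ℂ} (h : ‖w‖ < 1) : 0 < (T w).re := by
  have hw : w ≠ 1 := by rintro rfl; simp at h
  rw [T_re hw]
  have h1 : (1 - w) ≠ 0 := sub_ne_zero.mpr hw.symm
  apply div_pos _ (normSq_pos.mpr h1)
  rw [Complex.normSq_eq_norm_sq]
  nlinarith [norm_nonneg w]

lemma T_re_zero {w : ℂ} (hw : w ≠ 1) (h : ‖w‖ = 1) : (T w).re = 0 := by
  rw [T_re hw, Complex.normSq_eq_norm_sq, h]
  simp

lemma zeta_re (w : ℂ) : (zeta w).re = 5 / 4 - arg (T w) / (2 * Real.pi) := by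
  unfold zeta
  have h : I / (2 * (Real.pi : ℂ)) * log (T w) = ((1 / (2 * Real.pi) : ℝ) : ℂ) * (I * log (T w)) := by
    push_cast; ring
  rw [h, add_re, Complex.re_ofReal_mul]
  simp [Complex.mul_re, Complex.log_im]
  ring

lemma zeta_im (w : ℂ) : (zeta w).im = Real.log ‖T w‖ / (2 * Real.pi) := by
  unfold zeta
  have h : I / (2 * (Real.pi : ℂ)) * log (T w) = ((1 / (2 * Real.pi) : ℝ) : ℂ) * (I * log (T w)) := by
    push_cast; ring
  rw [h, add_im, Complex.im_ofReal_mul]
  simp [Complex.mul_im, Complex.log_re]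
  ring

lemma zeta_re_mem {w : ℂ} (hw : w ≠ 1) (h : ‖w‖ ≤ 1) :
    1 ≤ (zeta w).re ∧ (zeta w).re ≤ 3 / 2 := by
  rw [zeta_re]
  have h1 := abs_arg_le_pi_div_two_iff.mpr (T_re_nonneg hw h)
  rw [abs_le] at h1
  have hpi := Real.pi_pos
  have h2 : arg (T w) / (2 * Real.pi) ≤ 1 / 4 := by
    rw [div_le_iff₀ (by positivity)]; linarith [h1.2]
  have h3 : -(1 / 4) ≤ arg (T w) / (2 * Real.pi) := by
    rw [le_div_iff₀ (by positivity)]; linarith [h1.1]
  constructor <;> linarith

lemma zeta_re_sphere {w : ℂ} (hw : w ≠ 1) (hw' : w ≠ -1) (h : ‖w‖ = 1) :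
    (zeta w).re = 1 ∨ (zeta w).re = 3 / 2 := by
  rw [zeta_re]
  have h1 := T_re_zero hw h
  have h2 := T_ne_zero hw hw'
  have hpi := Real.pi_pos
  rcases lt_trichotomy (T w).im 0 with h3 | h3 | h3
  · right
    have := (Complex.arg_eq_neg_pi_div_two_iff (z := T w)).mpr ⟨h1, h3⟩
    rw [this]; field_simp; norm_num
  · exfalso
    apply h2
    apply Complex.ext
    · simpa using h1
    · simpa using h3
  · left
    have := (Complex.arg_eq_pi_div_two_iff (z := T w)).mpr ⟨h1, h3⟩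
    rw [this]; field_simp; norm_num

lemma differentiableAt_zeta {w : ℂ} (hw : w ≠ 1) (hw' : w ≠ -1) (h : ‖w‖ ≤ 1) :
    DifferentiableAt ℂ zeta w := by
  have h1 : (1 - w) ≠ 0 := sub_ne_zero.mpr hw.symm
  have h2 : T w ∈ slitPlane := by
    have h3 := T_re_nonneg hw h
    have h4 := T_ne_zero hw hw'
    rw [mem_slitPlane_iff]
    by_cases h5 : (T w).im = 0
    · left
      rcases lt_or_eq_of_le h3 with h6 | h6
      · exact h6
      · exfalso; apply h4; apply Complex.ext
        · simpa using h6.symm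
        · simpa using h5
    · right; exact h5
  have h3 : DifferentiableAt ℂ T w := by
    unfold T
    exact ((differentiableAt_const _).add differentiableAt_id).div
      ((differentiableAt_const _).sub differentiableAt_id) h1
  have h4 : DifferentiableAt ℂ (fun w => log (T w)) w := h3.clog h2
  unfold zeta
  exact (h4.const_mul _).const_add _

lemma tendsto_T_one : Tendsto (fun w => ‖T w‖) (𝓝[≠] 1) atTop := by
  have h1 : Tendsto (fun w : ℂ => ‖1 + w‖) (𝓝[≠] 1) (𝓝 2) := by
    have : ContinuousAt (fun w : ℂ => ‖1 + w‖) 1 := by fun_prop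
    have h2 := this.tendsto
    have h3 : ‖(1 : ℂ) + 1‖ = 2 := by norm_num
    rw [h3] at h2
    exact h2.mono_left nhdsWithin_le_nhds
  have h2 : Tendsto (fun w : ℂ => ‖1 - w‖⁻¹) (𝓝[≠] 1) atTop := by
    apply Tendsto.comp tendsto_inv_nhdsGT_zero
    rw [tendsto_nhdsWithin_iff]
    constructor
    · have : ContinuousAt (fun w : ℂ => ‖1 - w‖) 1 := by fun_prop
      have h3 := this.tendsto
      simp only [sub_self, norm_zero] at h3
      exact h3.mono_left nhdsWithin_le_nhds
    · filter_upwards [self_mem_nhdsWithin] with w hw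
      have : (1 - w) ≠ 0 := sub_ne_zero.mpr (Ne.symm hw)
      exact norm_pos_iff.mpr this
  have h3 := Tendsto.pos_mul_atTop (by norm_num : (0:ℝ) < 2) h1 h2
  refine h3.congr (fun w => ?_)
  unfold T
  rw [norm_div]
  rfl

lemma T_neg (w : ℂ) : T (-w) = (T w)⁻¹ := by
  unfold T
  rw [inv_div]
  congr 1
  ring

lemma tendsto_abs_log_one : Tendsto (fun w => |Real.log ‖T w‖|) (𝓝[≠] 1) atTop :=
  tendsto_abs_atTop_atTop.comp (Real.tendsto_log_atTop.comp tendsto_T_one)

lemma tendsto_abs_log_neg_one : Tendsto (fun w => |Real.log ‖T w‖|) (𝓝[≠] (-1)) atTop := by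
  have h1 : Tendsto (fun w : ℂ => -w) (𝓝[≠] (-1)) (𝓝[≠] 1) := by
    rw [tendsto_nhdsWithin_iff]
    constructor
    · have : ContinuousAt (fun w : ℂ => -w) (-1) := by fun_prop
      have h3 := this.tendsto
      rw [neg_neg] at h3
      exact h3.mono_left nhdsWithin_le_nhds
    · filter_upwards [self_mem_nhdsWithin] with w hw
      intro h
      apply hw
      simp only [mem_singleton_iff] at h ⊢
      rw [← h, neg_neg]
  refine (tendsto_abs_log_one.comp h1).congr (fun w => ?_)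
  simp only [Function.comp]
  rw [T_neg, norm_inv, Real.log_inv, abs_neg]

lemma tendsto_norm_zeta {c : ℂ} (hc : c = 1 ∨ c = -1) : Tendsto (fun w => ‖zeta w‖) (𝓝[≠] c) atTop := by
  have h0 : Tendsto (fun w => |Real.log ‖T w‖|) (𝓝[≠] c) atTop := by
    rcases hc with rfl | rfl
    · exact tendsto_abs_log_one
    · exact tendsto_abs_log_neg_one
  have hpi := Real.pi_pos
  have h1 : Tendsto (fun w => |Real.log ‖T w‖| / (2 * Real.pi)) (𝓝[≠] c) atTop :=
    h0.atTop_div_const (by positivity)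
  refine tendsto_atTop_mono (fun w => ?_) h1
  have h2 := Complex.abs_im_le_norm (zeta w)
  rw [zeta_im, abs_div, abs_of_pos (by positivity : (0:ℝ) < 2 * Real.pi)] at h2
  exact h2

/-- a function which is both holomorphic and antiholomorphic near a point has zero derivative -/
lemma deriv_zero_of_antiholo {A C : ℂ → ℂ} {w : ℂ} (hA : DifferentiableAt ℂ A w)
    (hC : DifferentiableAt ℂ C w) (h : A =ᶠ[𝓝 w] fun x => (starRingEnd ℂ) (C x)) :
    deriv A w = 0 := by
  have h1 : HasFDerivAt A ((ContinuousLinearMap.toSpanSingleton ℂ (deriv A w)).restrictScalars ℝ) w :=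
    (hA.hasDerivAt.hasFDerivAt).restrictScalars ℝ
  have h2 : HasFDerivAt C ((ContinuousLinearMap.toSpanSingleton ℂ (deriv C w)).restrictScalars ℝ) w :=
    (hC.hasDerivAt.hasFDerivAt).restrictScalars ℝ
  have h3 : HasFDerivAt (fun x => (starRingEnd ℂ) (C x))
      ((conjCLE : ℂ →L[ℝ] ℂ).comp
        ((ContinuousLinearMap.toSpanSingleton ℂ (deriv C w)).restrictScalars ℝ)) w :=
    HasFDerivAt.comp w (conjCLE : ℂ →L[ℝ] ℂ).hasFDerivAt h2
  have h4 := (h3.congr_of_eventuallyEq h).unique h1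
  have e1 := congrArg (fun L : ℂ →L[ℝ] ℂ => L 1) h4
  have e2 := congrArg (fun L : ℂ →L[ℝ] ℂ => L I) h4
  simp at e1 e2
  rw [← e1] at e2
  rw [← e1]
  have h5 : (2 * I) * (starRingEnd ℂ) (deriv C w) = 0 := by linear_combination - e2
  rcases mul_eq_zero.mp h5 with h6 | h6
  · exfalso; simp at h6
  · exact h6

end Pool.Agent.Helper61.DiscMap
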