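import Mathlib
import Pool.Agent.Helper61.Abel

/-!
Inverse Fatou coordinate for a germ `τ z = z + z^(m+1) q z` tangent to the identity.
-/

namespace Pool.Agent.Helper61.FatouCoord

open Complex Metric Set Filter Topology
open Pool.Agent.Helper61.Abel

lemma N_le_two_norm (Z : ℂ) : N Z ≤ 2 * ‖Z‖ := by
  unfold N
  have h1 := Complex.abs_re_le_norm Z
  have h2 := Complex.abs_im_le_norm Z
  have h3 := le_abs_self Z.re
  linarith

lemma ne_zero_of_N_pos {Z : ℂ} (h : 0 < N Z) : Z ≠ 0 := by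
  rintro rfl
  simp [N] at h

lemma mem_slitPlane_of_N_pos {Z : ℂ} (h : 0 < N Z) : Z ∈ slitPlane := by
  rw [mem_slitPlane_iff]
  by_cases h0 : Z.im = 0
  · left
    unfold N at h
    rw [h0] at h
    simpa using h
  · right; exact h0

lemma abs_arg_lt_of_N_pos {Z : ℂ} (h : 0 < N Z) : |arg Z| < 3 * Real.pi / 4 := by
  by_contra hcon
  push Not at hcon
  have hZ : Z ≠ 0 := ne_zero_of_N_pos h
  have hn : 0 < ‖Z‖ := norm_pos_iff.mpr hZ
  have h1 := Complex.norm_mul_cos_arg Z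
  have h2 := Complex.norm_mul_sin_arg Z
  have hpi := Complex.abs_arg_le_pi Z
  have hc : Real.cos (arg Z) ≤ Real.cos (3 * Real.pi / 4) := by
    rw [← Real.cos_abs (arg Z)]
    apply Real.cos_le_cos_of_nonneg_of_le_pi _ hpi hcon
    have := Real.pi_pos
    positivity
  have h34 : Real.cos (3 * Real.pi / 4) = - (Real.sqrt 2 / 2) := by
    have : 3 * Real.pi / 4 = Real.pi - Real.pi / 4 := by ring
    rw [this, Real.cos_pi_sub, Real.cos_pi_div_four]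
  rw [h34] at hc
  have hsq : Real.sqrt 2 * Real.sqrt 2 = 2 := Real.mul_self_sqrt (by norm_num)
  have hs2 : 0 < Real.sqrt 2 := by positivity
  have hcs := Real.cos_sq_add_sin_sq (arg Z)
  have hs : |Real.sin (arg Z)| ≤ - Real.cos (arg Z) := by
    apply abs_le_of_sq_le_sq _ (by linarith)
    nlinarith
  have : N Z ≤ 0 := by
    unfold N
    rw [← h1, ← h2, abs_mul, abs_of_pos hn]
    nlinarith
  linarith

/-- the analytic function `y z = 1 + z^m q z` -/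
def yy (q : ℂ → ℂ) (m : ℕ) (z : ℂ) : ℂ := 1 + z ^ m * q z

/-- the error term of the map in the coordinate `Z = κ z^(-m)` -/
noncomputable def beta0 (q : ℂ → ℂ) (m : ℕ) (κ : ℂ) (z : ℂ) : ℂ :=
  1 - κ * q z * (∑ i ∈ Finset.range m, (yy q m z) ^ i) / (yy q m z) ^ m

lemma beta0_rel {q : ℂ → ℂ} {m : ℕ} {κ Z z : ℂ} (hZ : Z ≠ 0) (hz : z ^ m = κ / Z)
    (hy : yy q m z ≠ 0) : Z * ((yy q m z) ^ m)⁻¹ = Z - 1 + beta0 q m κ z := by
  unfold beta0
  have h1 := geom_sum_mul (yy q m z) m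
  have h2 : yy q m z - 1 = κ / Z * q z := by unfold yy; rw [hz]; ring
  rw [h2] at h1
  have hym : (yy q m z) ^ m ≠ 0 := pow_ne_zero _ hy
  set S := ∑ i ∈ Finset.range m, (yy q m z) ^ i
  set Y := (yy q m z) ^ m
  field_simp
  field_simp at h1
  linear_combination h1

lemma analyticAt_yy {q : ℂ → ℂ} {m : ℕ} (hq : AnalyticAt ℂ q 0) : AnalyticAt ℂ (yy q m) 0 := by
  unfold yy
  fun_prop

lemma yy_zero {q : ℂ → ℂ} {m : ℕ} (hm : m ≠ 0) : yy q m 0 = 1 := by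
  simp [yy, hm]

lemma analyticAt_beta0 {q : ℂ → ℂ} {m : ℕ} (hm : m ≠ 0) (κ : ℂ) (hq : AnalyticAt ℂ q 0) :
    AnalyticAt ℂ (beta0 q m κ) 0 := by
  unfold beta0
  have h1 := analyticAt_yy (m := m) hq
  have h2 : AnalyticAt ℂ (fun z => ∑ i ∈ Finset.range m, (yy q m z) ^ i) 0 := by
    apply Finset.analyticAt_fun_sum
    intro i _
    exact h1.pow i
  apply analyticAt_const.sub
  apply AnalyticAt.div
  · exact (analyticAt_const.mul hq).mul h2
  · exact h1.pow m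
  · simp [yy_zero hm]

lemma beta0_zero {q : ℂ → ℂ} {m : ℕ} (hm : m ≠ 0) (hq0 : q 0 ≠ 0) :
    beta0 q m (1 / (m * q 0)) 0 = 0 := by
  unfold beta0
  rw [yy_zero hm]
  have : (m : ℂ) ≠ 0 := by exact_mod_cast hm
  simp
  field_simp
  ring

/-- the branch of the inverse coordinate -/
noncomputable def chi (κ : ℂ) (m : ℕ) (Z : ℂ) : ℂ := κ ^ ((m : ℂ)⁻¹) * Z ^ (-(m : ℂ)⁻¹)

lemma chi_pow {κ : ℂ} {m : ℕ} (hm : m ≠ 0) (Z : ℂ) : (chi κ m Z) ^ m = κ / Z := by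
  unfold chi
  rw [mul_pow, Complex.cpow_nat_inv_pow κ hm, Complex.cpow_neg, inv_pow,
    Complex.cpow_nat_inv_pow Z hm]
  rfl

lemma chi_ne_zero {κ : ℂ} {m : ℕ} (hm : m ≠ 0) (hκ : κ ≠ 0) {Z : ℂ} (hZ : Z ≠ 0) :
    chi κ m Z ≠ 0 := by
  intro h
  have := chi_pow (κ := κ) hm Z
  rw [h, zero_pow hm] at this
  exact (div_ne_zero hκ hZ) this.symm

lemma norm_chi {κ : ℂ} {m : ℕ} (hm : m ≠ 0) (Z : ℂ) :
    ‖chi κ m Z‖ = (‖κ‖ / ‖Z‖) ^ ((m : ℝ)⁻¹) := by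
  have h1 : ‖chi κ m Z‖ ^ m = ‖κ‖ / ‖Z‖ := by
    rw [← norm_pow, chi_pow hm, norm_div]
  rw [← h1, Real.pow_rpow_inv_natCast (norm_nonneg _) hm]

lemma hasDerivAt_chi {κ : ℂ} {m : ℕ} {Z : ℂ} (hZ : Z ∈ slitPlane) :
    HasDerivAt (chi κ m) (-(m : ℂ)⁻¹ * (chi κ m Z / Z)) Z := by
  have h1 := ((hasDerivAt_id Z).cpow_const (c := -(m : ℂ)⁻¹) hZ).const_mul (κ ^ ((m : ℂ)⁻¹))
  have hZ0 : Z ≠ 0 := slitPlane_ne_zero hZ
  refine h1.congr_deriv ?_
  simp only [chi, id]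
  rw [Complex.cpow_sub _ _ hZ0, Complex.cpow_one]
  ring

/-- compatibility of `chi` with multiplication by `y^(-m)`, `y` close to `1` -/
lemma chi_mul {κ : ℂ} {m : ℕ} (hm : m ≠ 0) {Z y : ℂ} (hZ : 0 < N Z) (hy : y ≠ 0)
    (hya : m * |arg y| < Real.pi / 4) : chi κ m (Z * (y ^ m)⁻¹) = chi κ m Z * y := by
  have hm' : (m : ℂ) ≠ 0 := by exact_mod_cast hm
  have hZ0 := ne_zero_of_N_pos hZ
  have harg := abs_arg_lt_of_N_pos hZ
  have h1 : Z * (y ^ m)⁻¹ = exp (log Z - m * log y) := by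
    rw [Complex.exp_sub, Complex.exp_log hZ0, Complex.exp_nat_mul, Complex.exp_log hy]
    rfl
  have h2 : log (Z * (y ^ m)⁻¹) = log Z - m * log y := by
    rw [h1, Complex.log_exp]
    · simp only [sub_im, mul_im, natCast_re, natCast_im, zero_mul, add_zero, log_im]
      rw [abs_lt] at harg
      have h3 : |(m : ℝ) * arg y| < Real.pi / 4 := by
        rw [abs_mul, Nat.abs_cast]; exact hya
      rw [abs_lt] at h3
      linarith [h3.1, h3.2, harg.1, harg.2]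
    · simp only [sub_im, mul_im, natCast_re, natCast_im, zero_mul, add_zero, log_im]
      rw [abs_lt] at harg
      have h3 : |(m : ℝ) * arg y| < Real.pi / 4 := by
        rw [abs_mul, Nat.abs_cast]; exact hya
      rw [abs_lt] at h3
      linarith [h3.1, h3.2, harg.1, harg.2]
  unfold chi
  have h3 : Z * (y ^ m)⁻¹ ≠ 0 := mul_ne_zero hZ0 (inv_ne_zero (pow_ne_zero _ hy))
  rw [Complex.cpow_def_of_ne_zero h3, h2, Complex.cpow_def_of_ne_zero hZ0, mul_assoc]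
  congr 1
  have h4 : (log Z - m * log y) * -(m : ℂ)⁻¹ = log Z * -(m : ℂ)⁻¹ + log y := by
    field_simp
    ring
  rw [h4, Complex.exp_add, Complex.exp_log hy]

lemma exists_chi_small {κ : ℂ} {m : ℕ} (hm : m ≠ 0) {ε : ℝ} (hε : 0 < ε) :
    ∃ R > 0, ∀ Z : ℂ, R < N Z → ‖chi κ m Z‖ < ε := by
  refine ⟨2 * ‖κ‖ / ε ^ m + 1, by positivity, fun Z hZ => ?_⟩
  have h0 : 0 ≤ 2 * ‖κ‖ / ε ^ m := by positivity
  have h1 := N_le_two_norm Z
  have h2 : 0 < ‖Z‖ := by linarith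
  rw [norm_chi hm]
  have h3 : ‖κ‖ / ‖Z‖ < ε ^ m := by
    rw [div_lt_iff₀ h2]
    have h4 : 2 * ‖κ‖ / ε ^ m < 2 * ‖Z‖ := by linarith
    rw [div_lt_iff₀ (by positivity)] at h4
    linarith
  have h5 : (0 : ℝ) < (m : ℝ)⁻¹ := by
    have : (0 : ℝ) < m := by exact_mod_cast Nat.pos_of_ne_zero hm
    positivity
  calc (‖κ‖ / ‖Z‖) ^ ((m : ℝ)⁻¹) < (ε ^ m) ^ ((m : ℝ)⁻¹) :=
        Real.rpow_lt_rpow (by positivity) h3 h5
    _ = ε := Real.pow_rpow_inv_natCast hε.le hm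

/-- tail sums can be made small -/
lemma exists_tail {C a : ℝ} (hC : 0 ≤ C) (ha : 0 < a) (R : ℝ) :
    ∃ R0 : ℝ, R ≤ R0 ∧ 0 < R0 ∧
      ∀ n : ℕ, ∑ i ∈ Finset.range n, 2 * (C * (R0 + 1 + i / 2) ^ (-(1 + a))) ≤ 1 / 32 := by
  set g : ℕ → ℝ := fun i => 2 * (C * (2 ^ (1 + a) * (i : ℝ) ^ (-(1 + a)))) with hg
  have hgs : Summable g := by
    apply Summable.mul_left
    apply Summable.mul_left
    apply Summable.mul_left
    rw [Real.summable_nat_rpow]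
    linarith
  have hg0 : ∀ i, 0 ≤ g i := fun i => by positivity
  have htail := _root_.tendsto_sum_nat_add g
  have h1 : ∀ᶠ K : ℕ in atTop, ∑' k, g (k + K) < 1 / 32 :=
    htail.eventually_lt_const (by norm_num)
  obtain ⟨K1, hK1⟩ := exists_nat_ge (2 * R)
  obtain ⟨K, hK, hKK⟩ := (h1.and (eventually_ge_atTop (K1 + 1))).exists
  have hK' : (K1 : ℝ) + 1 ≤ K := by exact_mod_cast hKK
  have hK10 : (0 : ℝ) ≤ K1 := Nat.cast_nonneg _
  refine ⟨K / 2, by linarith, by linarith, fun n => ?_⟩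
  have h2 : ∀ i : ℕ, 2 * (C * ((K : ℝ) / 2 + 1 + i / 2) ^ (-(1 + a))) ≤ g (i + K) := by
    intro i
    have hi : (0 : ℝ) ≤ i := Nat.cast_nonneg _
    have h3 : ((K : ℝ) / 2 + 1 + i / 2) ^ (-(1 + a)) ≤ (((i : ℝ) + K) / 2) ^ (-(1 + a)) := by
      apply Real.rpow_le_rpow_of_nonpos
      · linarith
      · linarith
      · linarith
    have h4 : (((i : ℝ) + K) / 2) ^ (-(1 + a)) = 2 ^ (1 + a) * ((i + K : ℕ) : ℝ) ^ (-(1 + a)) := by
      rw [Real.div_rpow (by linarith) (by norm_num), Real.rpow_neg (by norm_num : (0:ℝ) ≤ 2)]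
      push_cast
      rw [div_inv_eq_mul, mul_comm]
    rw [h4] at h3
    simp only [hg]
    gcongr
  calc _ ≤ ∑ i ∈ Finset.range n, g (i + K) := Finset.sum_le_sum (fun i _ => h2 i)
    _ ≤ ∑' k, g (k + K) :=
      ((summable_nat_add_iff K).mpr hgs).sum_le_tsum _ (fun i _ => hg0 _)
    _ ≤ 1 / 32 := hK.le

theorem exists_fatou {τ q : ℂ → ℂ} {m : ℕ} (hm : m ≠ 0) (hq : AnalyticAt ℂ q 0) (hq0 : q 0 ≠ 0)
    (hτ : ∀ᶠ z in 𝓝 0, τ z = z + z ^ (m + 1) * q z) {δ : ℝ} (hδ : 0 < δ) :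
    ∃ p : ℂ → ℂ, DifferentiableOn ℂ p {ζ | 0 < ζ.re} ∧
      (∀ ζ : ℂ, 0 < ζ.re → ‖p ζ‖ < δ ∧ p ζ ≠ 0 ∧ p ζ = τ (p (ζ + 1))) ∧
      (∀ ε > 0, ∃ R : ℝ, ∀ ζ : ℂ, 0 < ζ.re → R ≤ ‖ζ‖ → ‖p ζ‖ < ε) := by
  have hmC : (m : ℂ) ≠ 0 := by exact_mod_cast hm
  have hmR : (0 : ℝ) < m := by exact_mod_cast Nat.pos_of_ne_zero hm
  set κ : ℂ := 1 / (m * q 0) with hκdef
  have hκ : κ ≠ 0 := by rw [hκdef]; exact one_div_ne_zero (mul_ne_zero hmC hq0)
  set b := beta0 q m κ with hb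
  have hba : AnalyticAt ℂ b 0 := analyticAt_beta0 hm κ hq
  have hb0 : b 0 = 0 := by rw [hb, hκdef]; exact beta0_zero hm hq0
  have hya := analyticAt_yy (m := m) hq
  have hy0 : yy q m 0 = 1 := yy_zero hm
  -- eventual properties
  set B : ℝ := ‖deriv b 0‖ + 1 with hB
  have hBpos : 0 < B := by positivity
  have E2 : ∀ᶠ z in 𝓝 (0 : ℂ), DifferentiableAt ℂ b z :=
    hba.eventually_analyticAt.mono (fun z hz => hz.differentiableAt)
  have E3 : ∀ᶠ z in 𝓝 (0 : ℂ), ‖deriv b z‖ < B := by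
    have : ContinuousAt (fun z => ‖deriv b z‖) 0 := hba.deriv.continuousAt.norm
    exact this.tendsto.eventually_lt_const (by rw [hB]; linarith)
  have E4 : ∀ᶠ z in 𝓝 (0 : ℂ), yy q m z ≠ 0 := by
    apply hya.continuousAt.eventually_ne
    rw [hy0]; exact one_ne_zero
  have E5 : ∀ᶠ z in 𝓝 (0 : ℂ), m * |arg (yy q m z)| < Real.pi / 4 := by
    have h1 : ContinuousAt (fun z => (m : ℝ) * |arg (yy q m z)|) 0 := by
      have h2 : ContinuousAt arg (yy q m 0) := by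
        rw [hy0]; exact Complex.continuousAt_arg (by simp)
      have h3 : ContinuousAt (fun z => arg (yy q m z)) 0 := ContinuousAt.comp h2 hya.continuousAt
      exact h3.abs.const_mul _
    apply h1.tendsto.eventually_lt_const
    rw [hy0]
    simp [Real.pi_pos]
  have E6 : ∀ᶠ z in 𝓝 (0 : ℂ), ‖b z‖ < 1 / 8 := by
    apply hba.continuousAt.norm.tendsto.eventually_lt_const
    rw [hb0]; simp
  have Eall := hτ.and (E2.and (E3.and (E4.and (E5.and E6))))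
  rw [Metric.eventually_nhds_iff] at Eall
  obtain ⟨δ1, hδ1, hE⟩ := Eall
  simp only [dist_zero_right] at hE
  obtain ⟨R1, hR1, hchi1⟩ := exists_chi_small (κ := κ) hm (lt_min hδ1 hδ)
  set a : ℝ := (m : ℝ)⁻¹ with ha
  have hapos : 0 < a := by positivity
  set C : ℝ := B * ‖κ‖ ^ a * 2 ^ (1 + a) with hC
  have hCnn : 0 ≤ C := by positivity
  obtain ⟨R0, hR0, hR0pos, hsum⟩ := exists_tail hCnn hapos R1
  set β : ℂ → ℂ := fun Z => b (chi κ m Z) with hβ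
  set β' : ℂ → ℂ := fun Z => deriv b (chi κ m Z) * (-(m : ℂ)⁻¹ * (chi κ m Z / Z)) with hβ'
  have hsmall : ∀ Z, R0 < N Z → ‖chi κ m Z‖ < δ1 ∧ ‖chi κ m Z‖ < δ := by
    intro Z hZ
    have := hchi1 Z (lt_of_le_of_lt hR0 hZ)
    exact ⟨lt_of_lt_of_le this (min_le_left _ _), lt_of_lt_of_le this (min_le_right _ _)⟩
  have H : Hyp β β' R0 (fun x => C * x ^ (-(1 + a))) := by
    refine ⟨?_, ?_, ?_, ?_, ?_, ?_, ?_⟩
    · intro Z hZ
      have h1 := hE (hsmall Z hZ).1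
      have h2 := mem_slitPlane_of_N_pos (hR0pos.trans hZ)
      exact HasDerivAt.comp (h₂ := b) (h := chi κ m) Z h1.2.1.hasDerivAt (hasDerivAt_chi h2)
    · intro Z hZ
      have h1 := hE (hsmall Z hZ).1
      have hNZ : 0 < N Z := hR0pos.trans hZ
      have hZ2 := N_le_two_norm Z
      have hZpos : 0 < ‖Z‖ := by linarith
      have h3 : ‖-(m : ℂ)⁻¹‖ ≤ 1 := by
        rw [norm_neg, norm_inv, Complex.norm_natCast]
        apply inv_le_one_of_one_le₀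
        exact_mod_cast Nat.pos_of_ne_zero hm
      have h4 : ‖β' Z‖ ≤ B * (1 * ((‖κ‖ / ‖Z‖) ^ a / ‖Z‖)) := by
        simp only [hβ']
        rw [norm_mul, norm_mul, norm_div, norm_chi hm]
        gcongr
        exact h1.2.2.1.le
      refine h4.trans ?_
      have h5 : (‖κ‖ / ‖Z‖) ^ a / ‖Z‖ = ‖κ‖ ^ a * ‖Z‖ ^ (-(1 + a)) := by
        rw [Real.div_rpow (norm_nonneg _) (norm_nonneg _), neg_add, Real.rpow_add hZpos,
          Real.rpow_neg_one, Real.rpow_neg hZpos.le]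
        field_simp
      have h6 : ‖Z‖ ^ (-(1 + a)) ≤ (N Z / 2) ^ (-(1 + a)) := by
        apply Real.rpow_le_rpow_of_nonpos <;> linarith
      have h7 : (N Z / 2) ^ (-(1 + a)) = 2 ^ (1 + a) * (N Z) ^ (-(1 + a)) := by
        rw [Real.div_rpow hNZ.le (by norm_num), Real.rpow_neg (by norm_num : (0:ℝ) ≤ 2),
          div_inv_eq_mul, mul_comm]
      rw [one_mul, h5]
      calc B * (‖κ‖ ^ a * ‖Z‖ ^ (-(1 + a))) ≤ B * (‖κ‖ ^ a * (N Z / 2) ^ (-(1 + a))) := by gcongr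
        _ = C * N Z ^ (-(1 + a)) := by rw [h7, hC]; ring
    · intro x hx y hy hxy
      have hx' : R0 < x := hx
      simp only
      gcongr ?_ * ?_
      apply Real.rpow_le_rpow_of_nonpos (by linarith) hxy (by linarith)
    · intro x hx
      have : 0 < x := hR0pos.trans hx
      positivity
    · intro Z hZ
      exact (hE (hsmall Z hZ).1).2.2.2.2.2.le
    · exact hsum
    · intro ε hε
      have h1 : ∀ᶠ z in 𝓝 (0 : ℂ), ‖b z‖ < ε := by
        apply hba.continuousAt.norm.tendsto.eventually_lt_const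
        rw [hb0]; simpa using hε
      rw [Metric.eventually_nhds_iff] at h1
      obtain ⟨δ2, hδ2, h2⟩ := h1
      obtain ⟨R2, hR2, hchi2⟩ := exists_chi_small (κ := κ) hm hδ2
      refine ⟨R2 + 1, fun Z hZ => ?_⟩
      have := hchi2 Z (by linarith)
      exact (h2 (by simpa using this)).le
  obtain ⟨P, hP1, hP2, hP3⟩ := exists_abel H
  have hNP : ∀ ζ : ℂ, 0 < ζ.re → R0 < N (P ζ) := by
    intro ζ hζ
    have h1 := hP3 ζ hζ.le
    have h2 := one_le_norm hζ.le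
    linarith
  refine ⟨fun ζ => chi κ m (P ζ), ?_, ?_, ?_⟩
  · intro ζ hζ
    have h1 := mem_slitPlane_of_N_pos (hR0pos.trans (hNP ζ hζ))
    have h2 : DifferentiableAt ℂ P ζ :=
      (hP1 ζ hζ).differentiableAt ((isOpen_lt continuous_const Complex.continuous_re).mem_nhds hζ)
    exact (DifferentiableAt.comp ζ (hasDerivAt_chi h1).differentiableAt h2).differentiableWithinAt
  · intro ζ hζ
    have hζ1 : 0 < (ζ + 1).re := by simp; linarith
    refine ⟨(hsmall _ (hNP ζ hζ)).2, chi_ne_zero hm hκ (ne_zero_of_N_pos (hR0pos.trans (hNP ζ hζ))),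
      ?_⟩
    set Z := P (ζ + 1) with hZ
    have hNZ : R0 < N Z := hNP _ hζ1
    have hE1 := hE (hsmall Z hNZ).1
    have hZ0 : Z ≠ 0 := ne_zero_of_N_pos (hR0pos.trans hNZ)
    have h1 := beta0_rel (q := q) (κ := κ) (m := m) hZ0 (chi_pow hm Z) hE1.2.2.2.1
    have h2 := hP2 ζ hζ.le
    have h3 : P ζ = Z * ((yy q m (chi κ m Z)) ^ m)⁻¹ := by
      rw [h1, h2]
    show chi κ m (P ζ) = τ (chi κ m Z)
    rw [h3, chi_mul hm (hR0pos.trans hNZ) hE1.2.2.2.1 hE1.2.2.2.2.1, hE1.1]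
    unfold yy
    ring
  · intro ε hε
    obtain ⟨R2, hR2, hchi2⟩ := exists_chi_small (κ := κ) hm hε
    refine ⟨2 * R2 + 2, fun ζ hζ hζR => ?_⟩
    apply hchi2
    have h1 := hP3 ζ hζ.le
    have h2 : ‖ζ‖ ≤ ‖ζ + 1‖ := by
      rw [← sq_le_sq₀ (norm_nonneg _) (norm_nonneg _), Complex.sq_norm, Complex.sq_norm,
        normSq_apply, normSq_apply]
      simp
      nlinarith
    linarith

end Pool.Agent.Helper61.FatouCoord
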