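import Mathlib

/-!
The germ `τ` with `f (τ z) = f (-z)` for `f z = z^2 + ...`.
-/

namespace Pool.Agent.Helper61.TauGerm

open Complex Metric Set Filter Topology

lemma not_even_of_odd_coeff {f : ℂ → ℂ}
    (hodd : ∃ n : ℕ, 1 ≤ n ∧ iteratedDeriv (2 * n + 1) f 0 ≠ 0) :
    ¬ (∀ᶠ z in 𝓝 (0 : ℂ), f z = f (-z)) := by
  intro h
  obtain ⟨n, _, hne⟩ := hodd
  apply hne
  have h1 : iteratedDeriv (2 * n + 1) f 0 = iteratedDeriv (2 * n + 1) (fun z => f (-z)) 0 :=
    Filter.EventuallyEq.iteratedDeriv_eq (2 * n + 1) h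
  rw [iteratedDeriv_comp_neg] at h1
  have h2 : (-1 : ℂ) ^ (2 * n + 1) = -1 := Odd.neg_one_pow ⟨n, rfl⟩
  rw [h2, neg_zero] at h1
  simp at h1
  have h3 : (2 : ℂ) * iteratedDeriv (2 * n + 1) f 0 = 0 := by linear_combination h1
  simpa using h3

theorem exists_tau {f : ℂ → ℂ} (hf : AnalyticAt ℂ f 0) (h0 : f 0 = 0) (h1 : deriv f 0 = 0)
    (h2 : iteratedDeriv 2 f 0 = 2)
    (hodd : ∃ n : ℕ, 1 ≤ n ∧ iteratedDeriv (2 * n + 1) f 0 ≠ 0) :
    ∃ (τ q : ℂ → ℂ) (m : ℕ), m ≠ 0 ∧ AnalyticAt ℂ q 0 ∧ q 0 ≠ 0 ∧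
      (∀ᶠ z in 𝓝 0, τ z = z + z ^ (m + 1) * q z) ∧ (∀ᶠ z in 𝓝 0, f (τ z) = f (-z)) ∧
      (∀ᶠ z in 𝓝 0, z ≠ 0 → f z ≠ 0) := by
  obtain ⟨F, hF, hfF⟩ := hf.exists_eq_sum_add_pow_mul 3
  set u : ℂ → ℂ := fun z => 1 + z * F z with hu
  have hfu : ∀ z, f z = z ^ 2 * u z := by
    intro z
    rw [hfF z]
    simp only [Finset.sum_range_succ, Finset.range_zero, Finset.sum_empty, smul_eq_mul,
      iteratedDeriv_zero, h0, iteratedDeriv_one, h1, h2, hu]
    simp
    ring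
  have hua : AnalyticAt ℂ u 0 := by
    apply analyticAt_const.add
    exact analyticAt_id.mul hF
  have hu0 : u 0 = 1 := by simp [hu]
  set v : ℂ → ℂ := fun z => exp (log (u z) / 2) with hv
  have hva : AnalyticAt ℂ v 0 := by
    have h3 : AnalyticAt ℂ (fun z => log (u z)) 0 := hua.clog (by rw [hu0]; simp)
    exact (h3.div analyticAt_const (by norm_num)).cexp
  have hv0 : v 0 = 1 := by simp [hv, hu0]
  have hune : ∀ᶠ z in 𝓝 (0 : ℂ), u z ≠ 0 := by
    apply hua.continuousAt.eventually_ne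
    rw [hu0]; exact one_ne_zero
  have hvu : ∀ᶠ z in 𝓝 (0 : ℂ), v z ^ 2 = u z := by
    filter_upwards [hune] with z hz
    simp only [hv]
    rw [← Complex.exp_nat_mul]
    have : ((2 : ℕ) : ℂ) * (log (u z) / 2) = log (u z) := by push_cast; ring
    rw [this, Complex.exp_log hz]
  set s : ℂ → ℂ := fun z => z * v z with hs
  have hsa : AnalyticAt ℂ s 0 := analyticAt_id.mul hva
  have hs0 : s 0 = 0 := by simp [hs]
  have hsd : HasDerivAt s 1 0 := by
    have h3 := (hasDerivAt_id (0 : ℂ)).mul hva.differentiableAt.hasDerivAt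
    refine h3.congr_deriv ?_
    simp [hv0]
  have hsf : ∀ᶠ z in 𝓝 (0 : ℂ), s z ^ 2 = f z := by
    filter_upwards [hvu] with z hz
    rw [hfu z, ← hz]
    simp only [hs]
    ring
  have hsd' : deriv s 0 ≠ 0 := by rw [hsd.deriv]; exact one_ne_zero
  set θ : ℂ → ℂ := hsa.hasStrictDerivAt.localInverse _ _ _ hsd' with hθ
  have hθa : AnalyticAt ℂ θ 0 := by
    have := hsa.analyticAt_localInverse hsd'
    rwa [hs0] at this
  have hθr : ∀ᶠ w in 𝓝 (0 : ℂ), s (θ w) = w := by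
    have := HasStrictDerivAt.eventually_right_inverse hsa.hasStrictDerivAt hsd'
    rwa [hs0] at this
  have hθ0 : θ 0 = 0 := by
    have : θ (s 0) = 0 := HasStrictFDerivAt.localInverse_apply_image ..
    rwa [hs0] at this
  have hθd : HasDerivAt θ 1 0 := by
    have h3 := (HasStrictDerivAt.to_localInverse hsa.hasStrictDerivAt hsd').hasDerivAt
    rw [hs0] at h3
    refine h3.congr_deriv ?_
    rw [hsd.deriv]; simp
  set τ : ℂ → ℂ := fun z => θ (-s (-z)) with hτ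
  have hn : AnalyticAt ℂ (fun z : ℂ => -z) 0 := analyticAt_id.neg
  have hsna : AnalyticAt ℂ (fun z => -s (-z)) 0 := by
    have : AnalyticAt ℂ s (-(0 : ℂ)) := by rwa [neg_zero]
    exact (AnalyticAt.comp this hn).neg
  have hsn0 : (fun z => -s (-z)) 0 = 0 := by simp [hs0]
  have hτa : AnalyticAt ℂ τ 0 := by
    have : AnalyticAt ℂ θ ((fun z => -s (-z)) 0) := by rw [hsn0]; exact hθa
    exact AnalyticAt.comp this hsna
  have hτ0 : τ 0 = 0 := by simp [hτ, hs0, hθ0]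
  have hτd : HasDerivAt τ 1 0 := by
    have h3 : HasDerivAt (fun z : ℂ => -z) (-1) 0 := hasDerivAt_neg 0
    have h4 : HasDerivAt s 1 (-(0 : ℂ)) := by rwa [neg_zero]
    have h5 := (HasDerivAt.comp (0 : ℂ) h4 h3).neg
    have h5' : HasDerivAt (fun z => -s (-z)) (-(1 * -1)) 0 := h5
    have h6 : HasDerivAt θ 1 ((fun z => -s (-z)) 0) := by rw [hsn0]; exact hθd
    have h7 : HasDerivAt τ (1 * -(1 * -1)) 0 := HasDerivAt.comp (0 : ℂ) h6 h5'
    simpa using h7
  have hfτ : ∀ᶠ z in 𝓝 (0 : ℂ), f (τ z) = f (-z) := by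
    have t1 : Tendsto τ (𝓝 0) (𝓝 0) := by
      have := hτa.continuousAt.tendsto
      rwa [hτ0] at this
    have t2 : Tendsto (fun z : ℂ => -z) (𝓝 0) (𝓝 0) := by
      have := hn.continuousAt.tendsto
      simpa using this
    have t3 : Tendsto (fun z => -s (-z)) (𝓝 0) (𝓝 0) := by
      have h8 : Tendsto (fun z => -s (-z)) (𝓝 0) (𝓝 ((fun z => -s (-z)) 0)) :=
        hsna.continuousAt.tendsto
      rwa [hsn0] at h8
    filter_upwards [t1.eventually hsf, t2.eventually hsf, t3.eventually hθr] with z e1 e2 e3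
    rw [← e1, ← e2]
    have : s (τ z) = - s (-z) := e3
    rw [this]
    ring
  have hga : AnalyticAt ℂ (fun z => τ z - z) 0 := hτa.sub analyticAt_id
  have hgd : HasDerivAt (fun z => τ z - z) 0 0 := by
    have h8 : HasDerivAt (fun z => τ z - z) (1 - 1) 0 := hτd.sub (hasDerivAt_id (0 : ℂ))
    simpa using h8
  have hord : analyticOrderAt (fun z => τ z - z) 0 ≠ ⊤ := by
    intro htop
    rw [analyticOrderAt_eq_top] at htop
    apply not_even_of_odd_coeff hodd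
    filter_upwards [htop, hfτ] with z e1 e2
    have : τ z = z := sub_eq_zero.mp e1
    rw [this] at e2
    exact e2
  obtain ⟨N, hN⟩ := ENat.ne_top_iff_exists.mp hord
  obtain ⟨q, hqa, hq0, hq⟩ := (hga.analyticOrderAt_eq_natCast (n := N)).mp hN.symm
  simp only [sub_zero, smul_eq_mul] at hq
  have hN0 : N ≠ 0 := by
    rintro rfl
    have h3 := hq.self_of_nhds
    simp [hτ0] at h3
    exact hq0 h3.symm
  have hN1 : N ≠ 1 := by
    rintro rfl
    have h3 : HasDerivAt (fun z : ℂ => z ^ 1 * q z) (q 0) 0 := by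
      have h4 := (hasDerivAt_id (0 : ℂ)).mul hqa.differentiableAt.hasDerivAt
      simp only [pow_one]
      refine h4.congr_deriv ?_
      simp
    have h5 := hgd.congr_of_eventuallyEq (f₁ := fun z : ℂ => z ^ 1 * q z)
      (hq.mono (fun z hz => hz.symm))
    exact hq0 (h3.unique h5)
  obtain ⟨m, rfl⟩ : ∃ m, N = m + 2 := ⟨N - 2, by omega⟩
  refine ⟨τ, q, m + 1, by omega, hqa, hq0, ?_, hfτ, ?_⟩
  · filter_upwards [hq] with z hz
    have : τ z = z + (τ z - z) := by ring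
    rw [this, hz]
  · filter_upwards [hune] with z hz hz0
    rw [hfu z]
    exact mul_ne_zero (pow_ne_zero _ hz0) hz

end Pool.Agent.Helper61.TauGerm
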